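import Mathlib
import Pool.Agent.Lib.helper26.FreqB

namespace Pool.Agent.Results.MP_1f54e8_co.RhoFalse
open Finset Filter

/-- the exceptional family; the letter 1 is `true` and the letter 0 is `false` -/
def InR (w : List Bool) : Prop := ∃ k, 2 ≤ k ∧
  (w = List.replicate (k - 1) true ++ [false] ∨ w = true :: List.replicate (k - 1) false ∨
    w = List.replicate (k - 1) false ++ [true] ∨ w = false :: List.replicate (k - 1) true)

open Classical in
/-- words of length `n` that do not contain `w` as a factor -/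
noncomputable def avoid (w : List Bool) (n : ℕ) : Finset (Fin n → Bool) :=
  univ.filter (fun u => ¬ w <:+: List.ofFn u)

/-- average frequency of 1s in the `w`-avoiding words of length `n` -/
noncomputable def freq (w : List Bool) (n : ℕ) : ℝ :=
  (∑ u ∈ avoid w n, ((List.ofFn u).count true : ℝ)) / (n * (avoid w n).card)

open Pool.Agent.H26Freq

lemma notR (w : List Bool) (h1 : 2 ≤ w.count true) (h2 : 2 ≤ w.count false) : ¬ InR w := by
  rintro ⟨k, -, rfl | rfl | rfl | rfl⟩ <;> simp [List.count_replicate] at h1 h2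

lemma ev (K e : ℝ) (he : 0 < e) : ∀ᶠ n : ℕ in atTop, K ≤ e * n ∧ 0 < n := by
  filter_upwards [eventually_ge_atTop ⌈K / e⌉₊, eventually_gt_atTop 0] with n hn h0
  refine ⟨?_, h0⟩
  have := Nat.ceil_le.1 hn
  rw [div_le_iff₀ he] at this
  linarith

theorem result : ∃ v w : List Bool, ¬ InR v ∧ ¬ InR w ∧ 2 ≤ v.length ∧ v.length = w.length ∧
    v.count true < w.count true ∧ (true ∈ v ∧ false ∈ v ∧ true ∈ w ∧ false ∈ w) ∧
    ∃ a b : ℝ, a < b ∧ (∀ᶠ n in atTop, freq v n ≤ a) ∧ (∀ᶠ n in atTop, b ≤ freq w n) := by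
  refine ⟨vv, ww, notR _ (by decide) (by decide), notR _ (by decide) (by decide), by decide,
    by decide, by decide, by decide, ?_⟩
  obtain ⟨h1, h2, h3, h4, h5, h6⟩ := c6
  obtain ⟨K1, hK1⟩ := main cv (by decide) p1 p2 DD EE L1 DD L2 PP h1 (h1.trans h2) h1 h4 h3 c1 c2
  obtain ⟨K2, hK2⟩ := main cw (by decide) p3 p4 EE DD M1 DD M2 PP (h1.trans h2) h1 h1 h6 h5 c3 c4
  have r1 : (0 : ℝ) < DD := by exact_mod_cast h1
  have r2 : (DD : ℝ) < EE := by exact_mod_cast h2
  have r3 : (0 : ℝ) < L1 := by exact_mod_cast h3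
  have r4 : (0 : ℝ) < L2 := by exact_mod_cast h4
  have r5 : (0 : ℝ) < M1 := by exact_mod_cast h5
  have r6 : (0 : ℝ) < M2 := by exact_mod_cast h6
  have r7 : (L1 : ℝ) * M1 * DD < EE * L2 * M2 := by exact_mod_cast c5
  have r2' : (0 : ℝ) < EE := r1.trans r2
  have l1 := Real.log_lt_log r1 r2
  have l2 := Real.log_lt_log (by positivity) r7
  rw [Real.log_mul (by positivity) (by positivity), Real.log_mul (by positivity) (by positivity),
    Real.log_mul (by positivity) (by positivity), Real.log_mul (by positivity) (by positivity)]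
    at l2
  generalize Real.log DD = d at *
  generalize Real.log EE = e at *
  generalize Real.log L1 = x1 at *
  generalize Real.log L2 = x2 at *
  generalize Real.log M1 = y1 at *
  generalize Real.log M2 = y2 at *
  have hh : 0 < e - d := by linarith
  set g := (e + x2 + y2 - (x1 + y1 + d)) / 3 with hg
  have hg0 : 0 < g := by rw [hg]; linarith
  refine ⟨(x1 - x2 + g) / (e - d), (e - d - y1 + y2 - g) / (e - d), ?_, ?_, ?_⟩
  · apply div_lt_div_of_pos_right _ hh
    linarith
  · filter_upwards [ev K1 g hg0] with n hn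
    have hn0 : (0 : ℝ) < n := by exact_mod_cast hn.2
    have := hK1 n
    rw [le_div_iff₀ hh, freq, mul_comm (n : ℝ), ← div_div, div_mul_eq_mul_div, div_le_iff₀ hn0]
    change (∑ u ∈ Om vv n, ((List.ofFn u).count true : ℝ)) / (Om vv n).card * (e - d) ≤ _
    nlinarith [hn.1]
  · filter_upwards [ev K2 g hg0] with n hn
    have hn0 : (0 : ℝ) < n := by exact_mod_cast hn.2
    have := hK2 n
    rw [div_le_iff₀ hh, freq, mul_comm (n : ℝ), ← div_div, div_mul_eq_mul_div, le_div_iff₀ hn0]
    change _ ≤ (∑ u ∈ Om ww n, ((List.ofFn u).count true : ℝ)) / (Om ww n).card * (e - d)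
    nlinarith [hn.1]

end Pool.Agent.Results.MP_1f54e8_co.RhoFalse
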